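import Pool.Agent.W27.FB.Stm

/-! FN-BOHR: trigonometric polynomials are uniformly almost periodic. -/

set_option autoImplicit false
open Filter Topology Finset
open scoped BoundedContinuousFunction

namespace Pool.Agent.W352.FN

open Pool.Agent.W27.FB Pool.Agent.W634.BQ Pool.Agent.W505.BQ

theorem Bo_mono {T T' : Finset Circle} {ρ ρ' : ℝ} (hT : T' ⊆ T) (hρ : ρ ≤ ρ') :
    Bo T ρ ⊆ Bo T' ρ' := fun _ hk θ hθ => (hk θ (hT hθ)).trans_le hρ

theorem bohr : S_bohr := by
  classical
  intro Q hQ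
  unfold Trig at hQ
  induction hQ using Submodule.span_induction with
  | mem x hx =>
    obtain ⟨θ, rfl⟩ := hx
    intro ε hε
    refine ⟨{θ}, ε, hε, fun a ha n => ?_⟩
    have h1 := ha θ (Finset.mem_singleton_self θ)
    have h2 : chr θ (n + a) - chr θ n =
        ((θ ^ n : Circle) : ℂ) * (((θ ^ a : Circle) : ℂ) - 1) := by
      rw [chr_apply, chr_apply, zpow_add, Circle.coe_mul]
      ring
    rw [h2, norm_mul, Circle.norm_coe, one_mul]
    exact h1.le
  | zero =>
    intro ε hε
    refine ⟨∅, 1, one_pos, fun a _ n => ?_⟩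
    simp [hε.le]
  | add x y _ _ hx hy =>
    intro ε hε
    obtain ⟨T1, ρ1, h1, H1⟩ := hx (ε / 2) (by positivity)
    obtain ⟨T2, ρ2, h2, H2⟩ := hy (ε / 2) (by positivity)
    refine ⟨T1 ∪ T2, min ρ1 ρ2, lt_min h1 h2, fun a ha n => ?_⟩
    have e1 := H1 a (Bo_mono Finset.subset_union_left (min_le_left _ _) ha) n
    have e2 := H2 a (Bo_mono Finset.subset_union_right (min_le_right _ _) ha) n
    have e3 : (x + y) (n + a) - (x + y) n = (x (n + a) - x n) + (y (n + a) - y n) := by
      rw [BoundedContinuousFunction.add_apply, BoundedContinuousFunction.add_apply]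
      ring
    rw [e3]
    calc _ ≤ ‖x (n + a) - x n‖ + ‖y (n + a) - y n‖ := norm_add_le _ _
      _ ≤ ε / 2 + ε / 2 := add_le_add e1 e2
      _ = ε := by ring
  | smul c x _ hx =>
    intro ε hε
    have hc : 0 < ‖c‖ + 1 := by positivity
    obtain ⟨T, ρ, h1, H⟩ := hx (ε / (‖c‖ + 1)) (by positivity)
    refine ⟨T, ρ, h1, fun a ha n => ?_⟩
    have e1 := H a ha n
    have e3 : (c • x) (n + a) - (c • x) n = c * (x (n + a) - x n) := by
      rw [BoundedContinuousFunction.smul_apply, BoundedContinuousFunction.smul_apply]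
      simp only [smul_eq_mul]
      ring
    rw [e3, norm_mul]
    calc ‖c‖ * ‖x (n + a) - x n‖ ≤ (‖c‖ + 1) * (ε / (‖c‖ + 1)) :=
          mul_le_mul (by linarith) e1 (norm_nonneg _) hc.le
      _ = ε := by field_simp

end Pool.Agent.W352.FN
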